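import Pool.Graph.R_seed8.H160R2.ML.T_B0
import Pool.Graph.R_seed8.H160R2.ML.T_EG
import Pool.Graph.R_seed8.H160R2.ML.T_IL
import Pool.Graph.R_seed8.H160R2.ML.T_SC

/-!
# Linear statistics of the eigenvalues of `binom(2+i+j, j)`, up to bounded errors
-/

set_option autoImplicit false

namespace Pool.Agent.Helper31.WN

open Finset MeasureTheory Filter Topology
open Pool.Agent.H160R2.OA Pool.Agent.H160R2.HL Pool.Agent.H160R2.NE Pool.Agent.H160R2.SA
open Pool.Agent.H160R2.ML

theorem cal_WW : cal = WW (-1) 2 := by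
  funext x
  rw [cal_eq]
  unfold WW
  rw [Real.log_div (X_pos (by norm_num) x).ne' (by have := X_pos (le_refl (-1 : ℝ)) x; linarith)]
  congr 2

/-- the linear statistics for the Pascal matrix -/
theorem sum_mu (G h : ℝ → ℝ) (K Kc : ℝ) (hh : Continuous h) (h0 : ∀ x, 0 ≤ x → 0 ≤ h x)
    (hK : ∀ x, 0 ≤ x → h x ≤ K * Real.exp (-x)) (hG : ∀ x, HasDerivAt G (-h x) x)
    (heven : ∀ x, G (-x) = G x) (hlim : Tendsto G atTop (𝓝 0)) (hGi : Integrable G)
    (hKc : 0 ≤ Kc) (hc : ∀ x, 0 ≤ x → h x ≤ Kc * ww (-1) 2 x) :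
    ∃ C : ℝ, ∀ L : ℕ, 1 ≤ L → ∀ (hJ : (J L).IsHermitian) (μ : Fin L → ℝ), IsMu L hJ μ →
      |∑ i, G (Real.log (μ i)) - 3 / (2 * Real.pi ^ 2) * (∫ x, G x) * Real.log L| ≤ C := by
  have hπ := Real.pi_pos
  obtain ⟨C1, hC1⟩ := sum_u G h K hh h0 hK hG heven hlim
  have hd2 : ∀ x, HasDerivAt (fun x => Kc * WW (-1) 2 x - G x) (-(Kc * ww (-1) 2 x - h x)) x := by
    intro x
    have := ((X_deriv (a := -1) (b := 2) (by norm_num) (by norm_num) x).const_mul Kc).sub (hG x)
    refine this.congr_deriv ?_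
    ring
  obtain ⟨C2, hC2⟩ := sum_u (fun x => Kc * WW (-1) 2 x - G x) (fun x => Kc * ww (-1) 2 x - h x)
    (Kc * 12) ((continuous_const.mul (X_cont (-1) 2 (by norm_num) (by norm_num))).sub hh)
    (fun x hx => sub_nonneg.2 (hc x hx))
    (fun x hx => by
      have q1 := X_le (le_refl (-1 : ℝ)) (by norm_num : (-1 : ℝ) ≤ 2) hx
      have q2 := h0 x hx
      have q3 : 4 * (2 - -1 : ℝ) = 12 := by norm_num
      rw [q3] at q1
      have q4 := mul_le_mul_of_nonneg_left q1 hKc
      linarith) hd2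
    (fun x => by rw [X_even, heven]) (by
      have := ((X_lim (le_refl (-1 : ℝ)) (by norm_num : (-1 : ℝ) ≤ 2)).const_mul Kc).sub hlim
      simpa using this)
  have hi2 : ∫ x, (Kc * WW (-1) 2 x - G x) = Kc * (4 * Real.pi ^ 2 / 9) - ∫ x, G x := by
    rw [← cal_WW, integral_sub (cal_int.const_mul Kc) hGi, integral_const_mul, cal_integral]
  rw [hi2] at hC2
  refine ⟨max C1 (2 * Kc * Real.log 2 + C2), fun L hL hJ μ hμ => ?_⟩
  have k1 := hC1 L hL hJ μ hμ
  have k2 := hC2 L hL hJ μ hμ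
  have k3 := mul_le_mul_of_nonneg_left (cal_sum hL hμ) hKc
  have e2 : ∑ i, (Kc * WW (-1) 2 (Real.log (μ i)) - G (Real.log (μ i))) =
      Kc * ∑ i, cal (Real.log (μ i)) - ∑ i, G (Real.log (μ i)) := by
    rw [Finset.sum_sub_distrib, cal_WW, Finset.mul_sum]
  have e3 : 3 / (2 * Real.pi ^ 2) * (Kc * (4 * Real.pi ^ 2 / 9) - ∫ x, G x) * Real.log L =
      Kc * (2 / 3 * Real.log L) - 3 / (2 * Real.pi ^ 2) * (∫ x, G x) * Real.log L := by
    field_simp
    ring
  rw [e2, e3] at k2
  rw [abs_le]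
  constructor
  · have := le_max_left C1 (2 * Kc * Real.log 2 + C2)
    linarith
  · have := le_max_right C1 (2 * Kc * Real.log 2 + C2)
    have e4 : Kc * (2 * Real.log 2 + 2 / 3 * Real.log L) =
      2 * Kc * Real.log 2 + Kc * (2 / 3 * Real.log L) := by ring
    rw [e4] at k3
    linarith

/-- the two lists of eigenvalues agree -/
theorem sum_eig (G : ℝ → ℝ) (N : ℕ) (u : Fin N → ℝ) (hu : IsEig N 0 u)
    (hJ : (J N).IsHermitian) (μ : Fin N → ℝ) (hμ : IsMu N hJ μ) :
    ∑ i, G (u i) = ∑ i, G (Real.log (μ i)) := by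
  have hP : (∏ i, (Polynomial.X - Polynomial.C (-(Real.exp (u i) : ℂ)))) =
      ∏ i, (Polynomial.X - Polynomial.C (-(μ i : ℂ))) := by
    refine Polynomial.eq_of_infinite_eval_eq _ _ ?_
    refine Set.Infinite.mono (s := {w : ℂ | w ≠ 0}) ?_ ?_
    · intro w hw
      have hw' : w ≠ 0 := hw
      show Polynomial.eval w _ = Polynomial.eval w _
      rw [Polynomial.eval_prod, Polynomial.eval_prod]
      have h1 := hu.2.2 w⁻¹
      rw [TB0.Dl_eq N _ (inv_ne_zero hw'), inv_inv, hμ.2.2.1] at h1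
      have h2 : ∏ i, (Polynomial.eval w (Polynomial.X - Polynomial.C (-(Real.exp (u i) : ℂ)))) =
          w ^ N * ∏ i, (1 + w⁻¹ * (Real.exp (u i) : ℂ)) := by
        have : w ^ N = ∏ _i : Fin N, w := by simp
        rw [this, ← Finset.prod_mul_distrib]
        refine Finset.prod_congr rfl fun i _ => ?_
        simp only [Polynomial.eval_sub, Polynomial.eval_X, Polynomial.eval_C, sub_neg_eq_add]
        field_simp
      rw [h2, ← h1, ← mul_assoc, ← mul_pow, mul_inv_cancel₀ hw', one_pow, one_mul]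
      refine Finset.prod_congr rfl fun i _ => ?_
      simp only [Polynomial.eval_sub, Polynomial.eval_X, Polynomial.eval_C, sub_neg_eq_add]
    · exact (Set.finite_singleton (0 : ℂ)).infinite_compl
  have hr := congrArg Polynomial.roots hP
  have hroots : ∀ f : Fin N → ℂ, Polynomial.roots (∏ i, (Polynomial.X - Polynomial.C (f i))) =
      Finset.univ.val.map f := by
    intro f
    have h := Polynomial.roots_multiset_prod_X_sub_C (Finset.univ.val.map f)
    rw [Multiset.map_map] at h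
    exact h
  rw [hroots, hroots] at hr
  have h3 := congrArg (fun s : Multiset ℂ => (s.map fun z => G (Real.log (-z.re))).sum) hr
  simp only [Multiset.map_map, Function.comp_def, Complex.neg_re, Complex.ofReal_re, neg_neg,
    Real.log_exp] at h3
  exact h3

/-- the linear statistics for `binom(2+i+j, j)` -/
theorem sum_two (G h : ℝ → ℝ) (K Kc : ℝ) (hh : Continuous h) (h0 : ∀ x, 0 ≤ x → 0 ≤ h x)
    (hK : ∀ x, 0 ≤ x → h x ≤ K * Real.exp (-x)) (hG : ∀ x, HasDerivAt G (-h x) x)
    (heven : ∀ x, G (-x) = G x) (hlim : Tendsto G atTop (𝓝 0)) (hGi : Integrable G)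
    (hKc : 0 ≤ Kc) (hc : ∀ x, 0 ≤ x → h x ≤ Kc * ww (-1) 2 x) :
    ∃ C : ℝ, ∀ (n : ℕ) (u : Fin (2 * n) → ℝ), 1 ≤ n → IsEig (2 * n) 2 u →
      |∑ i, G (u i) - 3 / (2 * Real.pi ^ 2) * (∫ x, G x) * Real.log (2 * n + 1)| ≤ C := by
  obtain ⟨C, hC⟩ := sum_mu G h K Kc hh h0 hK hG heven hlim hGi hKc hc
  have hanti := Z_antitone h0 hG
  have hnn := Z_nonneg h0 hG heven hlim
  refine ⟨C + 6 * G 0, fun n v hn hv => ?_⟩
  obtain ⟨u, hu⟩ := t_EG (2 * n + 1) 0
  obtain ⟨μ, hμ⟩ := det_wB (2 * n + 1) (by omega) (Z_herm (2 * n + 1))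
  have h1 := hC (2 * n + 1) (by omega) _ μ hμ
  rw [← sum_eig G (2 * n + 1) u hu _ μ hμ] at h1
  have h2 := t_IL (2 * n) 0 u v hu hv
  have h3 := t_SC (fun x => -G x) (G 0) (fun x => by simp only [heven])
    (fun a ha b hb hab => neg_le_neg (hanti ha hb hab))
    (fun x => by
      rw [abs_neg, abs_of_nonneg (hnn x), ← Z_even heven x]
      exact hanti (Set.mem_Ici.2 le_rfl) (Set.mem_Ici.2 (abs_nonneg x)) (abs_nonneg x))
    (2 * n) u v hu.1 hv.1 h2
  rw [Finset.sum_neg_distrib, Finset.sum_neg_distrib] at h3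
  have e : ((2 * n + 1 : ℕ) : ℝ) = 2 * n + 1 := by push_cast; ring
  rw [e] at h1
  rw [abs_le] at h1 h3 ⊢
  constructor <;> linarith

/-- exponential moments -/
theorem l2 (t : ℝ) (hi : Integrable
      (fun x : ℝ => Real.log ((Real.cosh x + Real.cosh t) / (Real.cosh x + 1))))
    (hv : ∫ x : ℝ, Real.log ((Real.cosh x + Real.cosh t) / (Real.cosh x + 1)) = t ^ 2) :
    ∃ C : ℝ, ∀ (n : ℕ) (u : Fin (2 * n) → ℝ), 1 ≤ n → IsEig (2 * n) 2 u →
    |∑ i, Real.log ((Real.cosh (u i) + Real.cosh t) / (Real.cosh (u i) + 1))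
      - 3 / (2 * Real.pi ^ 2) * t ^ 2 * Real.log (2 * n + 1)| ≤ C := by
  have hb : 1 ≤ Real.cosh t := Real.one_le_cosh t
  have e : (fun x : ℝ => Real.log ((Real.cosh x + Real.cosh t) / (Real.cosh x + 1))) =
      WW 2 (2 * Real.cosh t) := by
    funext x
    have h1 := Real.one_le_cosh x
    unfold WW
    rw [← Real.log_div (by positivity) (by positivity)]
    congr 1
    field_simp
  rw [e] at hi hv
  have h2 : (2 : ℝ) ≤ 2 * Real.cosh t := by linarith
  obtain ⟨C, hC⟩ := sum_two (WW 2 (2 * Real.cosh t)) (ww 2 (2 * Real.cosh t))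
    (4 * (2 * Real.cosh t - 2)) (2 * Real.cosh t - 2)
    (X_cont _ _ (by norm_num) (by linarith)) (fun x hx => X_nonneg (by norm_num) h2 hx)
    (fun x hx => X_le (by norm_num) h2 hx) (fun x => X_deriv (by norm_num) (by linarith) x)
    (X_even _ _) (X_lim (by norm_num) h2) hi (by linarith) (fun x hx => by
      have hs := Real.sinh_nonneg_iff.2 hx
      have hc := Real.one_le_cosh x
      unfold ww
      rw [← mul_div_assoc, div_le_div_iff₀ (by positivity)
        (mul_pos (by linarith) (by linarith))]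
      have q1 : (2 * Real.cosh x + -1) ≤ 3 * (2 * Real.cosh x + 2 * Real.cosh t) := by linarith
      have q2 : 0 ≤ 2 * Real.sinh x * (2 * Real.cosh t - 2) * (2 * Real.cosh x + 2) := by
        have : 0 ≤ 2 * Real.cosh t - 2 := by linarith
        positivity
      calc 2 * Real.sinh x * (2 * Real.cosh t - 2) *
            ((2 * Real.cosh x + -1) * (2 * Real.cosh x + 2))
          = 2 * Real.sinh x * (2 * Real.cosh t - 2) * (2 * Real.cosh x + 2) *
            (2 * Real.cosh x + -1) := by ring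
        _ ≤ 2 * Real.sinh x * (2 * Real.cosh t - 2) * (2 * Real.cosh x + 2) *
            (3 * (2 * Real.cosh x + 2 * Real.cosh t)) := mul_le_mul_of_nonneg_left q1 q2
        _ = _ := by ring)
  rw [hv] at hC
  refine ⟨C, fun n u hn hu => ?_⟩
  have h := hC n u hn hu
  have e2 : ∀ i, Real.log ((Real.cosh (u i) + Real.cosh t) / (Real.cosh (u i) + 1)) =
      WW 2 (2 * Real.cosh t) (u i) := fun i => congrFun e (u i)
  simp only [e2]
  exact h

theorem l3_pos (x : ℝ) : 0 < Real.cosh x + 1 := by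
  have := Real.one_le_cosh x
  linarith

theorem l3_deriv (x : ℝ) : HasDerivAt (fun x => 1 / (2 * (Real.cosh x + 1)))
    (-(Real.sinh x / (2 * (Real.cosh x + 1) ^ 2))) x := by
  have h0 := l3_pos x
  have h1 : HasDerivAt (fun x => 2 * (Real.cosh x + 1)) (2 * Real.sinh x) x :=
    ((Real.hasDerivAt_cosh x).add_const 1).const_mul 2
  have h2 := (hasDerivAt_const x (1 : ℝ)).fun_div h1 (by positivity)
  refine h2.congr_deriv ?_
  field_simp
  ring

theorem l3_prim (x : ℝ) : HasDerivAt (fun x => Real.sinh x / (2 * (Real.cosh x + 1)))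
    (1 / (2 * (Real.cosh x + 1))) x := by
  have h0 := l3_pos x
  have h1 : HasDerivAt (fun x => 2 * (Real.cosh x + 1)) (2 * Real.sinh x) x :=
    ((Real.hasDerivAt_cosh x).add_const 1).const_mul 2
  have h2 := (Real.hasDerivAt_sinh x).fun_div h1 (by positivity)
  refine h2.congr_deriv ?_
  have h3 := Real.cosh_sq_sub_sinh_sq x
  field_simp
  linear_combination h3

theorem l3_exp {x : ℝ} (_hx : 0 ≤ x) : 1 ≤ 2 * Real.exp (-x) * (Real.cosh x + 1) := by
  have h1 : Real.exp x * Real.exp (-x) = 1 := by rw [← Real.exp_add]; simp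
  have h2 := Real.exp_pos (-x)
  rw [Real.cosh_eq]
  nlinarith

theorem l3_sinh_le (x : ℝ) : Real.sinh x ≤ Real.cosh x + 1 := by
  have h2 := Real.exp_pos (-x)
  rw [Real.cosh_eq, Real.sinh_eq]
  linarith

theorem l3_lim : Tendsto (fun x : ℝ => 1 / (2 * (Real.cosh x + 1))) atTop (𝓝 0) := by
  refine squeeze_zero' (Eventually.of_forall fun x => ?_) ?_ Real.tendsto_exp_neg_atTop_nhds_zero
  · have := l3_pos x
    positivity
  · filter_upwards [eventually_ge_atTop (0 : ℝ)] with x hx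
    have h0 := l3_pos x
    rw [div_le_iff₀ (by positivity)]
    have := l3_exp hx
    linarith

theorem l3_int : Integrable (fun x : ℝ => 1 / (2 * (Real.cosh x + 1))) ∧
    ∫ x : ℝ, 1 / (2 * (Real.cosh x + 1)) = 1 := by
  have hc : Continuous (fun x : ℝ => 1 / (2 * (Real.cosh x + 1))) :=
    continuous_iff_continuousAt.2 fun x => (l3_deriv x).continuousAt
  have hi : Integrable (fun x : ℝ => 1 / (2 * (Real.cosh x + 1))) := by
    refine (integrable_inv_one_add_sq.const_mul 2).mono' hc.aestronglyMeasurable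
      (Eventually.of_forall fun x => ?_)
    have h0 := l3_pos x
    have h1 := I_cosh_ge x
    rw [Real.norm_eq_abs, abs_of_nonneg (by positivity), div_le_iff₀ (by positivity)]
    have h2 : (1 + x ^ 2) * (1 + x ^ 2)⁻¹ = 1 := mul_inv_cancel₀ (by positivity)
    have h3 : 0 < (1 + x ^ 2)⁻¹ := by positivity
    nlinarith
  refine ⟨hi, ?_⟩
  have t1 : Tendsto (fun x => Real.sinh x / (2 * (Real.cosh x + 1))) atTop (𝓝 (1 / 2)) := by
    have h1 : Tendsto (fun x : ℝ => 1 / 2 - 1 * Real.exp (-x)) atTop (𝓝 (1 / 2 - 1 * 0)) :=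
      tendsto_const_nhds.sub (Real.tendsto_exp_neg_atTop_nhds_zero.const_mul 1)
    rw [mul_zero, sub_zero] at h1
    refine tendsto_of_tendsto_of_tendsto_of_le_of_le' h1 tendsto_const_nhds ?_ ?_
    · filter_upwards [eventually_ge_atTop (0 : ℝ)] with x hx
      have h0 := l3_pos x
      rw [le_div_iff₀ (by positivity)]
      have h2 := Real.exp_pos (-x)
      have h4 : Real.cosh x - Real.sinh x = Real.exp (-x) := Real.cosh_sub_sinh x
      have h7 : Real.exp x * Real.exp (-x) = 1 := by rw [← Real.exp_add]; simp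
      have h8 : 2 * Real.exp (-x) * Real.cosh x = 1 + Real.exp (-x) ^ 2 := by
        rw [Real.cosh_eq]
        linear_combination h7
      have h9 : (1 / 2 - 1 * Real.exp (-x)) * (2 * (Real.cosh x + 1)) =
          Real.cosh x + 1 - 2 * Real.exp (-x) * Real.cosh x - 2 * Real.exp (-x) := by ring
      rw [h9, h8]
      have h10 := sq_nonneg (Real.exp (-x))
      linarith
    · refine Eventually.of_forall fun x => ?_
      have h0 := l3_pos x
      rw [div_le_iff₀ (by positivity)]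
      have := l3_sinh_le x
      linarith
  have t2 : Tendsto (fun x => Real.sinh x / (2 * (Real.cosh x + 1))) atBot (𝓝 (-(1 / 2))) := by
    have h1 := (t1.comp tendsto_neg_atBot_atTop).neg
    refine h1.congr fun x => ?_
    simp only [Function.comp, Real.sinh_neg, Real.cosh_neg]
    ring
  have h := integral_of_hasDerivAt_of_tendsto (fun x => l3_prim x) hi t2 t1
  rw [h]
  norm_num

/-- the variance -/
theorem l3 : ∃ C : ℝ, ∀ (n : ℕ) (u : Fin (2 * n) → ℝ), 1 ≤ n → IsEig (2 * n) 2 u →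
    |∑ i, 1 / (2 * (Real.cosh (u i) + 1)) - 3 / (2 * Real.pi ^ 2) * Real.log (2 * n + 1)| ≤ C := by
  obtain ⟨C, hC⟩ := sum_two (fun x => 1 / (2 * (Real.cosh x + 1)))
    (fun x => Real.sinh x / (2 * (Real.cosh x + 1) ^ 2)) 1 1
    (Continuous.div Real.continuous_sinh (by fun_prop) fun x => by
      have := l3_pos x
      positivity)
    (fun x hx => by
      have h1 := l3_pos x
      have h2 := Real.sinh_nonneg_iff.2 hx
      positivity)
    (fun x hx => by
      have h1 := l3_pos x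
      have h2 := l3_sinh_le x
      have h3 := l3_exp hx
      rw [div_le_iff₀ (by positivity)]
      calc Real.sinh x ≤ (Real.cosh x + 1) * 1 := by linarith
        _ ≤ (Real.cosh x + 1) * (2 * Real.exp (-x) * (Real.cosh x + 1)) :=
          mul_le_mul_of_nonneg_left h3 h1.le
        _ = _ := by ring)
    l3_deriv (fun x => by simp only [Real.cosh_neg]) l3_lim l3_int.1 zero_le_one
    (fun x hx => by
      have hs := Real.sinh_nonneg_iff.2 hx
      have hc := Real.one_le_cosh x
      unfold ww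
      rw [one_mul, div_le_div_iff₀ (by positivity) (mul_pos (by linarith) (by linarith))]
      have q : (2 * Real.cosh x + -1) * (2 * Real.cosh x + 2) ≤
          2 * (2 - -1) * (2 * (Real.cosh x + 1) ^ 2) := by nlinarith
      calc Real.sinh x * ((2 * Real.cosh x + -1) * (2 * Real.cosh x + 2))
          ≤ Real.sinh x * (2 * (2 - -1) * (2 * (Real.cosh x + 1) ^ 2)) :=
            mul_le_mul_of_nonneg_left q hs
        _ = _ := by ring)
  rw [l3_int.2, mul_one] at hC
  exact ⟨C, hC⟩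

end Pool.Agent.Helper31.WN
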